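import Pool.Agent.W475.BH.Stm

/-!
# Area mean of `log ‖f‖`
-/

set_option autoImplicit false

namespace Pool.Agent.W196.BH

open Complex MeasureTheory Filter Topology Set Pool.Agent.W475.BH

lemma jensen {f : ℂ → ℂ} (hf : Differentiable ℂ f) {c : ℂ} (hc : f c ≠ 0) {s : ℝ} (hs : 0 < s) :
    Real.log ‖f c‖ ≤ Real.circleAverage (fun z => Real.log ‖f z‖) c s := by
  have han : AnalyticOnNhd ℂ f (Metric.closedBall c |s|) := fun z _ => hf.analyticAt z
  have h := MeromorphicOn.circleAverage_log_norm hs.ne' han.meromorphicOn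
  have hcm : c ∈ Metric.closedBall c |s| := Metric.mem_closedBall_self (abs_nonneg s)
  have hdiv : MeromorphicOn.divisor f (Metric.closedBall c |s|) c = 0 := by
    rw [MeromorphicOn.AnalyticOnNhd.divisor_apply han hcm, (hf.analyticAt c).analyticOrderAt_eq_zero.2 hc]
    simp
  rw [hdiv, (hf.analyticAt c).meromorphicTrailingCoeffAt_of_ne_zero hc] at h
  rw [h]
  have hsum : 0 ≤ ∑ᶠ u, (MeromorphicOn.divisor f (Metric.closedBall c |s|) u : ℝ) * Real.log (s * ‖c - u‖⁻¹) := by
    apply finsum_nonneg
    intro u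
    by_cases hu : u ∈ Metric.closedBall c |s|
    · apply mul_nonneg
      · have h1 := MeromorphicOn.AnalyticOnNhd.divisor_nonneg han u
        exact_mod_cast h1
      · rcases eq_or_ne u c with rfl | hne
        · simp
        · have h2 : 0 < ‖c - u‖ := norm_pos_iff.2 (sub_ne_zero.2 hne.symm)
          have h3 : ‖c - u‖ ≤ s := by
            rw [Metric.mem_closedBall, dist_comm, dist_eq_norm, abs_of_pos hs] at hu
            exact hu
          apply Real.log_nonneg
          rw [← div_eq_mul_inv, le_div_iff₀ h2, one_mul]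
          exact h3
    · rw [Function.locallyFinsuppWithin.apply_eq_zero_of_notMem _ hu]
      simp
  simp only [Int.cast_zero, zero_mul, add_zero]
  linarith

/-- average over `(-π, π)` -/
lemma avg (g : ℂ → ℝ) (c : ℂ) (s : ℝ) :
    ∫ θ in Ioo (-Real.pi) Real.pi, g (c + s * (Real.cos θ + Real.sin θ * I)) =
      2 * Real.pi * Real.circleAverage g c s := by
  have e : ∀ θ : ℝ, g (c + s * (Real.cos θ + Real.sin θ * I)) = g (circleMap c s θ) := by
    intro θ
    rw [circleMap, Complex.exp_mul_I, Complex.ofReal_cos, Complex.ofReal_sin]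
  simp only [e]
  rw [← integral_Ioc_eq_integral_Ioo, ← intervalIntegral.integral_of_le (by linarith [Real.pi_pos])]
  have hper : Function.Periodic (fun θ => g (circleMap c s θ)) (2 * Real.pi) := by
    intro θ
    simp only
    rw [periodic_circleMap c s θ]
  have h1 := hper.intervalIntegral_add_eq (-Real.pi) 0
  rw [show -Real.pi + 2 * Real.pi = Real.pi by ring, zero_add] at h1
  rw [h1, Real.circleAverage]
  have := Real.pi_ne_zero
  rw [smul_eq_mul]
  field_simp

theorem t_CA2 (h1 : S_CA1) : S_CA2 := by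
  intro f hf c r hr hc
  have hloc := h1 f hf ⟨c, hc⟩
  -- the function on the ball
  set g : ℂ → ℝ := (Metric.closedBall c r).indicator (fun z => Real.log ‖f z‖) with hg
  have hgi : Integrable g := by
    rw [hg, integrable_indicator_iff measurableSet_closedBall]
    exact hloc.integrableOn_isCompact (isCompact_closedBall c r)
  have hgc : Integrable (fun z => g (c + z)) := hgi.comp_add_left c
  have hI : ∫ z in Metric.closedBall c r, Real.log ‖f z‖ = ∫ z, g (c + z) := by
    rw [integral_add_left_eq_self (μ := volume) g c, hg, integral_indicator measurableSet_closedBall]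
  rw [hI, ← Complex.integral_comp_polarCoord_symm (fun z => g (c + z))]
  rw [polarCoord_target]
  simp only [Complex.polarCoord_symm_apply, smul_eq_mul]
  -- integrability
  have hmeasg : Measurable g := by
    apply Measurable.indicator _ measurableSet_closedBall
    exact Real.measurable_log.comp hf.continuous.norm.measurable
  have hmeas : Measurable (fun p : ℝ × ℝ => p.1 * g (c + p.1 * (Real.cos p.2 + Real.sin p.2 * I))) := by
    apply measurable_fst.mul
    apply hmeasg.comp
    have : Continuous (fun p : ℝ × ℝ => c + (p.1 : ℂ) * ((Real.cos p.2 : ℂ) + (Real.sin p.2 : ℂ) * I)) := by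
      fun_prop
    exact this.measurable
  have hint : IntegrableOn (fun p : ℝ × ℝ => p.1 * g (c + p.1 * (Real.cos p.2 + Real.sin p.2 * I)))
      (Ioi 0 ×ˢ Ioo (-Real.pi) Real.pi) := by
    refine ⟨hmeas.aestronglyMeasurable, ?_⟩
    have h2 := Complex.lintegral_comp_polarCoord_symm (fun z => ‖g (c + z)‖ₑ)
    rw [polarCoord_target] at h2
    have h3 : ∫⁻ z, ‖g (c + z)‖ₑ < ⊤ := hgc.2
    rw [← h2] at h3
    refine lt_of_le_of_lt (le_of_eq ?_) h3
    apply setLIntegral_congr_fun (measurableSet_Ioi.prod measurableSet_Ioo)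
    intro p hp
    have hp1 : 0 < p.1 := hp.1
    simp only [Complex.polarCoord_symm_apply, smul_eq_mul]
    rw [enorm_mul, Real.enorm_eq_ofReal hp1.le]
  rw [Measure.volume_eq_prod, setIntegral_prod _ hint]
  -- inner integral
  have hin : ∀ s ∈ Ioi (0 : ℝ), ∫ θ in Ioo (-Real.pi) Real.pi, s * g (c + s * (Real.cos θ + Real.sin θ * I)) =
      (Ioc 0 r).indicator (fun s => 2 * Real.pi * s * Real.circleAverage (fun z => Real.log ‖f z‖) c s) s := by
    intro s hs
    have hs0 : 0 < s := hs
    have hnorm : ∀ θ : ℝ, ‖(Real.cos θ : ℂ) + (Real.sin θ : ℂ) * I‖ = 1 := by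
      intro θ
      rw [Complex.ofReal_cos, Complex.ofReal_sin, ← Complex.exp_mul_I, Complex.norm_exp_ofReal_mul_I]
    have hmem : ∀ θ : ℝ, (c + (s : ℂ) * ((Real.cos θ : ℂ) + (Real.sin θ : ℂ) * I) ∈ Metric.closedBall c r) ↔ s ≤ r := by
      intro θ
      rw [Metric.mem_closedBall, dist_eq_norm, add_sub_cancel_left, norm_mul, hnorm, mul_one, Complex.norm_real,
        Real.norm_eq_abs, abs_of_pos hs0]
    rw [integral_const_mul]
    by_cases hsr : s ≤ r
    · rw [indicator_of_mem (show s ∈ Ioc 0 r from ⟨hs0, hsr⟩)]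
      have e : ∀ θ : ℝ, g (c + (s : ℂ) * ((Real.cos θ : ℂ) + (Real.sin θ : ℂ) * I)) =
          Real.log ‖f (c + (s : ℂ) * ((Real.cos θ : ℂ) + (Real.sin θ : ℂ) * I))‖ := fun θ =>
        indicator_of_mem ((hmem θ).2 hsr) _
      simp only [e]
      rw [avg (fun z => Real.log ‖f z‖) c s]
      ring
    · rw [indicator_of_notMem (fun h => hsr h.2)]
      have e : ∀ θ : ℝ, g (c + (s : ℂ) * ((Real.cos θ : ℂ) + (Real.sin θ : ℂ) * I)) = 0 := fun θ =>
        indicator_of_notMem (fun h => hsr ((hmem θ).1 h)) _
      simp only [e]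
      simp
  rw [setIntegral_congr_fun measurableSet_Ioi hin]
  have hint2 : IntegrableOn ((Ioc 0 r).indicator
      (fun s => 2 * Real.pi * s * Real.circleAverage (fun z => Real.log ‖f z‖) c s)) (Ioi 0) := by
    have h2 := hint
    rw [IntegrableOn, Measure.volume_eq_prod, ← Measure.prod_restrict] at h2
    have h3 := h2.integral_prod_left
    refine h3.congr ?_
    filter_upwards [ae_restrict_mem measurableSet_Ioi] with s hs
    exact hin s hs
  have hcomp : IntegrableOn ((Ioc 0 r).indicator (fun s => 2 * Real.pi * s * Real.log ‖f c‖)) (Ioi 0) := by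
    apply Integrable.integrableOn
    rw [integrable_indicator_iff measurableSet_Ioc]
    exact (Continuous.integrableOn_Icc (by fun_prop)).mono_set Ioc_subset_Icc_self
  have hle := setIntegral_mono_on hcomp hint2 measurableSet_Ioi (fun s hs => by
    by_cases hsr : s ∈ Ioc 0 r
    · rw [indicator_of_mem hsr, indicator_of_mem hsr]
      apply mul_le_mul_of_nonneg_left (jensen hf hc hs)
      have : 0 < s := hs
      positivity
    · rw [indicator_of_notMem hsr, indicator_of_notMem hsr])
  refine le_trans (le_of_eq ?_) hle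
  rw [setIntegral_indicator measurableSet_Ioc]
  have e : Ioi (0 : ℝ) ∩ Ioc 0 r = Ioc 0 r := by
    ext x
    simp only [mem_inter_iff, mem_Ioi, mem_Ioc]
    tauto
  rw [e, ← intervalIntegral.integral_of_le hr.le]
  have e2 : ∀ s : ℝ, 2 * Real.pi * s * Real.log ‖f c‖ = (2 * Real.pi * Real.log ‖f c‖) * s := by
    intro s; ring
  simp only [e2]
  rw [intervalIntegral.integral_const_mul, integral_id]
  ring

end Pool.Agent.W196.BH
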